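import Mathlib
import Pool.Agent.Helper71.TetDiam

namespace Pool.Agent.Results.MP_db6300_gt.DiameterMinimal

open Matrix

theorem result (v : Fin 4 → Fin 3 → ℝ) (a : ℝ) (ha : 0 < a)
    (hv : ∀ i j, i ≠ j → (v i - v j) ⬝ᵥ (v i - v j) = a ^ 2)
    (K : Set (Fin 3 → ℝ)) (hconv : Convex ℝ K) (hcomp : IsCompact K)
    (hadm : ∀ R ∈ Matrix.specialOrthogonalGroup (Fin 3) ℝ, ∃ t : Fin 3 → ℝ, ∀ i,
      R *ᵥ v i + t ∈ frontier K) :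
    (∃ x ∈ frontier K, ∃ y ∈ frontier K, 3 * a ^ 2 / 2 ≤ (x - y) ⬝ᵥ (x - y)) ∧
      ((∀ x ∈ frontier K, ∀ y ∈ frontier K, (x - y) ⬝ᵥ (x - y) ≤ 3 * a ^ 2 / 2) →
        ∃ c : Fin 3 → ℝ, frontier K = {x | (x - c) ⬝ᵥ (x - c) = 3 * a ^ 2 / 8}) := by
  have main : (∀ x ∈ frontier K, ∀ y ∈ frontier K, (x - y) ⬝ᵥ (x - y) ≤ 3 * a ^ 2 / 2) →
        ∃ c : Fin 3 → ℝ, frontier K = {x | (x - c) ⬝ᵥ (x - c) = 3 * a ^ 2 / 8} := fun h =>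
    Pool.Agent.Helper71.Tet.diam_core v a ha hv K hconv hcomp.isClosed hadm h
  refine ⟨?_, main⟩
  by_contra hcon
  push Not at hcon
  obtain ⟨c, hc⟩ := main fun x hx y hy => (hcon x hx y hy).le
  have hr : Real.sqrt (3 * a ^ 2 / 8) ^ 2 = 3 * a ^ 2 / 8 := Real.sq_sqrt (by positivity)
  set r := Real.sqrt (3 * a ^ 2 / 8)
  have hw : (![r, 0, 0] : Fin 3 → ℝ) ⬝ᵥ ![r, 0, 0] = 3 * a ^ 2 / 8 := by
    rw [← hr]
    simp [dotProduct, Fin.sum_univ_three, Matrix.cons_val]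
    ring
  have h1 : c + ![r, 0, 0] ∈ frontier K := by
    rw [hc, Set.mem_ofPred_eq, add_sub_cancel_left, hw]
  have h2 : c - ![r, 0, 0] ∈ frontier K := by
    rw [hc, Set.mem_ofPred_eq, sub_sub_cancel_left, neg_dotProduct, dotProduct_neg, neg_neg, hw]
  have h3 := hcon _ h1 _ h2
  have e : c + ![r, 0, 0] - (c - ![r, 0, 0]) = (2 : ℝ) • ![r, 0, 0] := by
    rw [two_smul]
    abel
  rw [e, smul_dotProduct, dotProduct_smul, hw, smul_eq_mul, smul_eq_mul] at h3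
  linarith

end Pool.Agent.Results.MP_db6300_gt.DiameterMinimal
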