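import Mathlib
import Pool.Agent.Helper26.LU.Final

namespace Pool.Agent.Results.MP_db6300_gt.LocalUniqueness

open Matrix

theorem result : ∃ δ : ℝ, 0 < δ ∧ ∀ (v : Fin 4 → Fin 3 → ℝ) (a : ℝ), 0 < a →
    (∀ i j, i ≠ j → (v i - v j) ⬝ᵥ (v i - v j) = a ^ 2) →
    ∀ (K : Set (Fin 3 → ℝ)), Convex ℝ K → IsCompact K →
    (∀ R ∈ Matrix.specialOrthogonalGroup (Fin 3) ℝ, ∃ t : Fin 3 → ℝ, ∀ i,
      R *ᵥ v i + t ∈ frontier K) →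
    ∀ c : Fin 3 → ℝ,
      (∀ x ∈ frontier K, |(x - c) ⬝ᵥ (x - c) - 3 * a ^ 2 / 8| ≤ δ * a ^ 2) →
      ∃ c' : Fin 3 → ℝ, frontier K = {x | (x - c') ⬝ᵥ (x - c') = 3 * a ^ 2 / 8} :=
  Pool.Agent.Helper26.LU.main_theorem

end Pool.Agent.Results.MP_db6300_gt.LocalUniqueness
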