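import Mathlib
import Pool.Agent.Helper82.SP.OS8

namespace Pool.Agent.Results.MP_db6300_gt.PiecewiseSpherical

open Matrix

/-- For every rotation `R` some translate of the rotated tetrahedron has its four vertices on the
boundary of `K`. -/
def Static (v : Fin 4 → Fin 3 → ℝ) (K : Set (Fin 3 → ℝ)) : Prop :=
  ∀ R ∈ Matrix.specialOrthogonalGroup (Fin 3) ℝ, ∃ t : Fin 3 → ℝ, ∀ i, R *ᵥ v i + t ∈ frontier K

/-- The property of the problem: from one placement on the boundary of `K` the tetrahedron can be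
moved continuously, through placements, to every orientation. -/
def EveryOrientation (v : Fin 4 → Fin 3 → ℝ) (K : Set (Fin 3 → ℝ)) : Prop :=
  ∃ (R₀ : Matrix (Fin 3) (Fin 3) ℝ) (t₀ : Fin 3 → ℝ),
    R₀ ∈ Matrix.specialOrthogonalGroup (Fin 3) ℝ ∧ (∀ i, R₀ *ᵥ v i + t₀ ∈ frontier K) ∧
    ∀ R ∈ Matrix.specialOrthogonalGroup (Fin 3) ℝ,
      ∃ (S : ℝ → Matrix (Fin 3) (Fin 3) ℝ) (t : ℝ → Fin 3 → ℝ),
        ContinuousOn S (Set.Icc 0 1) ∧ ContinuousOn t (Set.Icc 0 1) ∧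
        S 0 = R₀ ∧ t 0 = t₀ ∧ S 1 = R ∧
        ∀ s ∈ Set.Icc (0 : ℝ) 1, S s ∈ Matrix.specialOrthogonalGroup (Fin 3) ℝ ∧
          ∀ i, S s *ᵥ v i + t s ∈ frontier K

/-- Convex surfaces contained in countably many planes and spheres. The two conditions on the
spheres hold in particular when `K` is contained in all the balls, as for an intersection of balls
and half-spaces. -/
theorem result (v : Fin 4 → Fin 3 → ℝ) (a : ℝ) (ha : 0 < a)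
    (hv : ∀ i j, i ≠ j → (v i - v j) ⬝ᵥ (v i - v j) = a ^ 2)
    (K : Set (Fin 3 → ℝ)) (hc : Convex ℝ K) (hK : IsCompact K)
    (n : ℕ → Fin 3 → ℝ) (k : ℕ → ℝ) (z : ℕ → Fin 3 → ℝ) (r : ℕ → ℝ) (hn : ∀ j, n j ≠ 0)
    (hcov : frontier K ⊆
      (⋃ j, {x | n j ⬝ᵥ x = k j}) ∪ ⋃ j, {x | (x - z j) ⬝ᵥ (x - z j) = r j})
    (h1 : ∀ i j, z i = z j → r i < r j →
      r j ≤ 2 * a ^ 2 / 3 ∨ ∀ x ∈ K, (x - z i) ⬝ᵥ (x - z i) ≤ r i)
    (h2 : ∀ i j, r i = a ^ 2 → r j = a ^ 2 → z i ≠ z j →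
      ∀ x ∈ K, (x - z i) ⬝ᵥ (x - z i) ≤ a ^ 2) :
    (Static v K ↔
      ((∃ c : Fin 3 → ℝ, frontier K = {x | (x - c) ⬝ᵥ (x - c) = 3 * a ^ 2 / 8}) ∨
        ∃ c m : Fin 3 → ℝ, m ≠ 0 ∧
          K = {x | (x - c) ⬝ᵥ (x - c) ≤ a ^ 2 ∧ 0 ≤ m ⬝ᵥ (x - c)})) ∧
    (EveryOrientation v K ↔
      ∃ c : Fin 3 → ℝ, frontier K = {x | (x - c) ⬝ᵥ (x - c) = 3 * a ^ 2 / 8}) :=
  Pool.Agent.Helper82.SP.classification2 ⟨ha, hv⟩ hc hK n k z r hn hcov h1 h2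

end Pool.Agent.Results.MP_db6300_gt.PiecewiseSpherical
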