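import Mathlib
import Pool.Agent.Helper82.SP.All

namespace Pool.Agent.Results.MP_db6300_gt.PivotRigidity

open Matrix

theorem result (v : Fin 4 → Fin 3 → ℝ) (a : ℝ) (ha : 0 < a)
    (hv : ∀ i j, i ≠ j → (v i - v j) ⬝ᵥ (v i - v j) = a ^ 2)
    (K : Set (Fin 3 → ℝ)) (hc : Convex ℝ K) (hK : IsCompact K)
    (hS : ∀ R ∈ Matrix.specialOrthogonalGroup (Fin 3) ℝ, ∃ t : Fin 3 → ℝ, ∀ i,
      R *ᵥ v i + t ∈ frontier K)
    (c w : Fin 3 → ℝ) (hw : w ∈ convexHull ℝ (Set.range v))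
    (hw' : ∀ i j, w ∉ segment ℝ (v i) (v j))
    (U : Set (Matrix (Fin 3) (Fin 3) ℝ)) (hU : IsOpen U)
    (hne : ∃ R ∈ U, R ∈ Matrix.specialOrthogonalGroup (Fin 3) ℝ)
    (hp : ∀ R ∈ U, R ∈ Matrix.specialOrthogonalGroup (Fin 3) ℝ →
      ∀ i, c + R *ᵥ (v i - w) ∈ frontier K) :
    frontier K = {x | (x - c) ⬝ᵥ (x - c) = 3 * a ^ 2 / 8} := by
  obtain ⟨R, hR, hR'⟩ := hne
  exact Pool.Agent.Helper82.SP.pivotRigid Pool.Agent.Helper82.SP.factB17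
    Pool.Agent.Helper82.SP.factPR v a K ⟨ha, hv⟩ hc hK hS c w U hU ⟨R, hR, hR'⟩ hw hw' hp

end Pool.Agent.Results.MP_db6300_gt.PivotRigidity
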